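import Mathlib
import Pool.Agent.Lib.helper8.Bnd

set_option autoImplicit false

namespace Pool.Agent.H.MP_2e1090_co

open Pool.Agent.Lib.helper8

def T : ℕ := 528294531135665246380978688841659684336676727107335488174637718644057490196878554450211569465465295382146574509280010324907652924807660949237762780327395038916632613645412060393977306527377107297305792002343658032623874081579656247473379744377292061703022400745467019264

def W (x y z : Fin 9) : ℕ := (T >>> (2 * (2 ^ x.val + (2 ^ y.val + 2 ^ z.val)))) % 4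

noncomputable def w (B : Finset (Fin 9)) : ℝ := (((T >>> (2 * ∑ i ∈ B, 2 ^ i.val)) % 4 : ℕ) : ℝ)

theorem sum3 {M : Type} [AddCommMonoid M] (c : Fin 9 → M) (x y z : Fin 9) (h1 : x ≠ y) (h2 : x ≠ z)
    (h3 : y ≠ z) : ∑ i ∈ ({x, y, z} : Finset (Fin 9)), c i = c x + (c y + c z) := by
  rw [Finset.sum_insert (by simp [h1, h2]), Finset.sum_insert (by simp [h3]), Finset.sum_singleton]

theorem w3 (x y z : Fin 9) (h1 : x ≠ y) (h2 : x ≠ z) (h3 : y ≠ z) : w {x, y, z} = W x y z := by
  unfold w W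
  rw [sum3 _ x y z h1 h2 h3]

theorem card3 (x y z : Fin 9) (h1 : x ≠ y) (h2 : x ≠ z) (h3 : y ≠ z) :
    ({x, y, z} : Finset (Fin 9)).card = 3 := Finset.card_eq_three.mpr ⟨x, y, z, h1, h2, h3, rfl⟩

theorem sorted3 (B : Finset (Fin 9)) (h : B.card = 3) :
    ∃ x y z : Fin 9, x < y ∧ y < z ∧ B = {x, y, z} := by
  obtain ⟨a, b, c, h1, h2, h3, rfl⟩ := Finset.card_eq_three.mp h
  rcases lt_or_gt_of_ne h1 with p | p <;> rcases lt_or_gt_of_ne h2 with q | q <;>
    rcases lt_or_gt_of_ne h3 with r | r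
  · exact ⟨a, b, c, p, r, rfl⟩
  · exact ⟨a, c, b, q, r, by ext; simp; tauto⟩
  · exact absurd (p.trans r) (not_lt.mpr q.le)
  · exact ⟨c, a, b, q, p, by ext; simp; tauto⟩
  · exact ⟨b, a, c, p, q, by ext; simp; tauto⟩
  · exact absurd (q.trans r) (not_lt.mpr p.le)
  · exact ⟨b, c, a, r, q, by ext; simp; tauto⟩
  · exact ⟨c, b, a, r, p, by ext; simp; tauto⟩

def dd : Fin 6 → Fin 9 → ℕ := ![![0, 0, 0, 0, 0, 0, 0, 0, 0], ![0, 0, 1, 1, 0, 0, 1, 0, 0], ![0, 1, 2, 2, 1, 1, 2, 1, 0], ![0, 1, 1, 1, 1, 1, 1, 0, 0], ![0, 1, 0, 1, 1, 1, 0, 0, 0], ![0, 0, 2, 2, 1, 0, 2, 1, 0]]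

def mm : Fin 6 → ℕ := ![0, 1, 3, 2, 1, 2]

set_option synthInstance.maxSize 2000 in
theorem lower : ∀ (k : Fin 6) (x y z : Fin 9), x ≠ y → x ≠ z → y ≠ z →
    mm k ≤ W x y z + dd k x + dd k y + dd k z := by decide +kernel

set_option synthInstance.maxSize 2000 in
theorem base : ∀ (k : Fin 6), ∃ x y z : Fin 9, x < y ∧ y < z ∧
    W x y z + dd k x + dd k y + dd k z = mm k := by decide +kernel

def cell (u : Finset (Fin 9) → ℝ) (c : Fin 9 → ℝ) : Set (Finset (Fin 9)) :=
  {B | B.card = 3 ∧ ∀ B' : Finset (Fin 9), B'.card = 3 →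
    u B - ∑ i ∈ B, c i ≤ u B' - ∑ i ∈ B', c i}

theorem mem_cell (k : Fin 6) (x y z : Fin 9) (h1 : x < y) (h3 : y < z)
    (h : W x y z + dd k x + dd k y + dd k z = mm k) :
    ({x, y, z} : Finset (Fin 9)) ∈ cell w (fun i => -(dd k i : ℝ)) := by
  have h2 := h1.trans h3
  refine ⟨card3 x y z h1.ne h2.ne h3.ne, fun B hB => ?_⟩
  obtain ⟨a, b, c, p, q, r, rfl⟩ := Finset.card_eq_three.mp hB
  rw [w3 x y z h1.ne h2.ne h3.ne, w3 a b c p q r, sum3 _ x y z h1.ne h2.ne h3.ne, sum3 _ a b c p q r]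
  have l : (mm k : ℝ) ≤ W a b c + dd k a + dd k b + dd k c := by exact_mod_cast lower k a b c p q r
  have e : (W x y z + dd k x + dd k y + dd k z : ℝ) = mm k := by exact_mod_cast h
  linarith

theorem affine (v : Finset (Fin 9) → ℝ) (h : ∀ c, ∃ c', cell w c ⊆ cell v c') (k : Fin 6) :
    ∃ (m : ℝ) (a : Fin 9 → ℝ), ∀ x y z : Fin 9, x < y → y < z →
      W x y z + dd k x + dd k y + dd k z = mm k → v {x, y, z} = m + a x + a y + a z := by
  obtain ⟨c', hc⟩ := h (fun i => -(dd k i : ℝ))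
  obtain ⟨p, q, r, h1, h2, h3⟩ := base k
  have hb := hc (mem_cell k p q r h1 h2 h3)
  refine ⟨v {p, q, r} - ∑ i ∈ ({p, q, r} : Finset (Fin 9)), c' i, c', fun x y z g1 g2 g3 => ?_⟩
  have hx := hc (mem_cell k x y z g1 g2 g3)
  have e1 := hb.2 _ hx.1
  have e2 := hx.2 _ hb.1
  rw [sum3 c' x y z g1.ne (g1.trans g2).ne g2.ne] at e1 e2
  linarith

def L : List (Fin 9 × Fin 9 × Fin 9 × ℕ) := [(0, 1, 2, 0), (0, 1, 3, 0), (0, 1, 4, 1), (0, 1, 5, 2), (0, 1, 6, 0), (0, 1, 7, 1), (0, 1, 8, 2), (0, 2, 3, 0), (0, 2, 4, 0), (0, 2, 5, 0), (0, 2, 6, 1), (0, 2, 7, 1), (0, 2, 8, 1), (0, 3, 4, 0), (0, 3, 5, 0), (0, 3, 6, 0), (0, 3, 7, 1), (0, 3, 8, 1), (0, 4, 5, 1), (0, 4, 6, 0), (0, 4, 7, 1), (0, 4, 8, 2), (0, 5, 6, 0), (0, 5, 7, 1), (0, 5, 8, 2), (0, 6, 7, 1), (0, 6, 8, 1), (0, 7, 8, 2), (1, 2, 3, 0), (1, 2, 4, 0), (1, 2, 5, 0), (1, 2, 6, 0), (1, 2, 7, 0), (1, 2, 8, 0), (1, 3, 4, 0), (1, 3, 5, 0), (1, 3, 6, 0), (1, 3, 7, 0), (1, 3, 8, 0), (1, 4, 5, 1), (1, 4, 6, 0), (1,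 4, 7, 1), (1, 4, 8, 1), (1, 5, 6, 0), (1, 5, 7, 1), (1, 5, 8, 2), (1, 6, 7, 0), (1, 6, 8, 0), (1, 7, 8, 1), (2, 3, 4, 0), (2, 3, 5, 0), (2, 3, 6, 0), (2, 3, 7, 0), (2, 3, 8, 0), (2, 4, 5, 0), (2, 4, 6, 0), (2, 4, 7, 0), (2, 4, 8, 0), (2, 5, 6, 0), (2, 5, 7, 0), (2, 5, 8, 0), (2, 6, 7, 1), (2, 6, 8, 1), (2, 7, 8, 1), (3, 4, 5, 0), (3, 4, 6, 0), (3, 4, 7, 0), (3, 4, 8, 0), (3, 5, 6, 0), (3, 5, 7, 0), (3, 5, 8, 0), (3, 6, 7, 0), (3, 6, 8, 0), (3, 7, 8, 1), (4, 5, 6, 0), (4, 5, 7, 1), (4, 5, 8, 1), (4, 6, 7, 0), (4, 6, 8, 0), (4, 7, 8, 1), (5, 6, 7, 0), (5, 6, 8, 0), (5, 7, 8, 1), (6, 7, 8, 1)]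

set_option synthInstance.maxSize 2000 in
theorem mem_L : ∀ x y z : Fin 9, x < y → y < z → (x, y, z, W x y z) ∈ L := by decide +kernel

theorem key (v : Finset (Fin 9) → ℝ) (h : ∀ c, ∃ c', cell w c ⊆ cell v c') :
    ∃ (t : ℝ) (l : Fin 9 → ℝ), ∀ B : Finset (Fin 9), B.card = 3 → v B = t * w B + ∑ i ∈ B, l i := by
  obtain ⟨m0, a0, h0⟩ := affine v h 0
  obtain ⟨m1, a1, h1⟩ := affine v h 1
  obtain ⟨m2, a2, h2⟩ := affine v h 2
  obtain ⟨m3, a3, h3⟩ := affine v h 3
  obtain ⟨m4, a4, h4⟩ := affine v h 4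
  obtain ⟨m5, a5, h5⟩ := affine v h 5
  obtain ⟨t, ht⟩ : ∃ t : ℝ, t = v {0, 1, 4} - (m0 + a0 0 + a0 1 + a0 4) := ⟨_, rfl⟩
  have e012 : v {0, 1, 2} = t * ((0 : ℕ) : ℝ) + m0 + a0 0 + a0 1 + a0 2 := by
    rw [h0 0 1 2 (by decide) (by decide) (by decide +kernel)]; simp
  have e013 : v {0, 1, 3} = t * ((0 : ℕ) : ℝ) + m0 + a0 0 + a0 1 + a0 3 := by
    rw [h0 0 1 3 (by decide) (by decide) (by decide +kernel)]; simp
  have e016 : v {0, 1, 6} = t * ((0 : ℕ) : ℝ) + m0 + a0 0 + a0 1 + a0 6 := by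
    rw [h0 0 1 6 (by decide) (by decide) (by decide +kernel)]; simp
  have e023 : v {0, 2, 3} = t * ((0 : ℕ) : ℝ) + m0 + a0 0 + a0 2 + a0 3 := by
    rw [h0 0 2 3 (by decide) (by decide) (by decide +kernel)]; simp
  have e024 : v {0, 2, 4} = t * ((0 : ℕ) : ℝ) + m0 + a0 0 + a0 2 + a0 4 := by
    rw [h0 0 2 4 (by decide) (by decide) (by decide +kernel)]; simp
  have e025 : v {0, 2, 5} = t * ((0 : ℕ) : ℝ) + m0 + a0 0 + a0 2 + a0 5 := by
    rw [h0 0 2 5 (by decide) (by decide) (by decide +kernel)]; simp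
  have e034 : v {0, 3, 4} = t * ((0 : ℕ) : ℝ) + m0 + a0 0 + a0 3 + a0 4 := by
    rw [h0 0 3 4 (by decide) (by decide) (by decide +kernel)]; simp
  have e035 : v {0, 3, 5} = t * ((0 : ℕ) : ℝ) + m0 + a0 0 + a0 3 + a0 5 := by
    rw [h0 0 3 5 (by decide) (by decide) (by decide +kernel)]; simp
  have e036 : v {0, 3, 6} = t * ((0 : ℕ) : ℝ) + m0 + a0 0 + a0 3 + a0 6 := by
    rw [h0 0 3 6 (by decide) (by decide) (by decide +kernel)]; simp
  have e046 : v {0, 4, 6} = t * ((0 : ℕ) : ℝ) + m0 + a0 0 + a0 4 + a0 6 := by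
    rw [h0 0 4 6 (by decide) (by decide) (by decide +kernel)]; simp
  have e056 : v {0, 5, 6} = t * ((0 : ℕ) : ℝ) + m0 + a0 0 + a0 5 + a0 6 := by
    rw [h0 0 5 6 (by decide) (by decide) (by decide +kernel)]; simp
  have e123 : v {1, 2, 3} = t * ((0 : ℕ) : ℝ) + m0 + a0 1 + a0 2 + a0 3 := by
    rw [h0 1 2 3 (by decide) (by decide) (by decide +kernel)]; simp
  have e124 : v {1, 2, 4} = t * ((0 : ℕ) : ℝ) + m0 + a0 1 + a0 2 + a0 4 := by
    rw [h0 1 2 4 (by decide) (by decide) (by decide +kernel)]; simp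
  have e125 : v {1, 2, 5} = t * ((0 : ℕ) : ℝ) + m0 + a0 1 + a0 2 + a0 5 := by
    rw [h0 1 2 5 (by decide) (by decide) (by decide +kernel)]; simp
  have e126 : v {1, 2, 6} = t * ((0 : ℕ) : ℝ) + m0 + a0 1 + a0 2 + a0 6 := by
    rw [h0 1 2 6 (by decide) (by decide) (by decide +kernel)]; simp
  have e127 : v {1, 2, 7} = t * ((0 : ℕ) : ℝ) + m0 + a0 1 + a0 2 + a0 7 := by
    rw [h0 1 2 7 (by decide) (by decide) (by decide +kernel)]; simp
  have e128 : v {1, 2, 8} = t * ((0 : ℕ) : ℝ) + m0 + a0 1 + a0 2 + a0 8 := by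
    rw [h0 1 2 8 (by decide) (by decide) (by decide +kernel)]; simp
  have e134 : v {1, 3, 4} = t * ((0 : ℕ) : ℝ) + m0 + a0 1 + a0 3 + a0 4 := by
    rw [h0 1 3 4 (by decide) (by decide) (by decide +kernel)]; simp
  have e135 : v {1, 3, 5} = t * ((0 : ℕ) : ℝ) + m0 + a0 1 + a0 3 + a0 5 := by
    rw [h0 1 3 5 (by decide) (by decide) (by decide +kernel)]; simp
  have e136 : v {1, 3, 6} = t * ((0 : ℕ) : ℝ) + m0 + a0 1 + a0 3 + a0 6 := by
    rw [h0 1 3 6 (by decide) (by decide) (by decide +kernel)]; simp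
  have e137 : v {1, 3, 7} = t * ((0 : ℕ) : ℝ) + m0 + a0 1 + a0 3 + a0 7 := by
    rw [h0 1 3 7 (by decide) (by decide) (by decide +kernel)]; simp
  have e138 : v {1, 3, 8} = t * ((0 : ℕ) : ℝ) + m0 + a0 1 + a0 3 + a0 8 := by
    rw [h0 1 3 8 (by decide) (by decide) (by decide +kernel)]; simp
  have e146 : v {1, 4, 6} = t * ((0 : ℕ) : ℝ) + m0 + a0 1 + a0 4 + a0 6 := by
    rw [h0 1 4 6 (by decide) (by decide) (by decide +kernel)]; simp
  have e156 : v {1, 5, 6} = t * ((0 : ℕ) : ℝ) + m0 + a0 1 + a0 5 + a0 6 := by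
    rw [h0 1 5 6 (by decide) (by decide) (by decide +kernel)]; simp
  have e167 : v {1, 6, 7} = t * ((0 : ℕ) : ℝ) + m0 + a0 1 + a0 6 + a0 7 := by
    rw [h0 1 6 7 (by decide) (by decide) (by decide +kernel)]; simp
  have e168 : v {1, 6, 8} = t * ((0 : ℕ) : ℝ) + m0 + a0 1 + a0 6 + a0 8 := by
    rw [h0 1 6 8 (by decide) (by decide) (by decide +kernel)]; simp
  have e234 : v {2, 3, 4} = t * ((0 : ℕ) : ℝ) + m0 + a0 2 + a0 3 + a0 4 := by
    rw [h0 2 3 4 (by decide) (by decide) (by decide +kernel)]; simp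
  have e235 : v {2, 3, 5} = t * ((0 : ℕ) : ℝ) + m0 + a0 2 + a0 3 + a0 5 := by
    rw [h0 2 3 5 (by decide) (by decide) (by decide +kernel)]; simp
  have e236 : v {2, 3, 6} = t * ((0 : ℕ) : ℝ) + m0 + a0 2 + a0 3 + a0 6 := by
    rw [h0 2 3 6 (by decide) (by decide) (by decide +kernel)]; simp
  have e237 : v {2, 3, 7} = t * ((0 : ℕ) : ℝ) + m0 + a0 2 + a0 3 + a0 7 := by
    rw [h0 2 3 7 (by decide) (by decide) (by decide +kernel)]; simp
  have e238 : v {2, 3, 8} = t * ((0 : ℕ) : ℝ) + m0 + a0 2 + a0 3 + a0 8 := by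
    rw [h0 2 3 8 (by decide) (by decide) (by decide +kernel)]; simp
  have e245 : v {2, 4, 5} = t * ((0 : ℕ) : ℝ) + m0 + a0 2 + a0 4 + a0 5 := by
    rw [h0 2 4 5 (by decide) (by decide) (by decide +kernel)]; simp
  have e246 : v {2, 4, 6} = t * ((0 : ℕ) : ℝ) + m0 + a0 2 + a0 4 + a0 6 := by
    rw [h0 2 4 6 (by decide) (by decide) (by decide +kernel)]; simp
  have e247 : v {2, 4, 7} = t * ((0 : ℕ) : ℝ) + m0 + a0 2 + a0 4 + a0 7 := by
    rw [h0 2 4 7 (by decide) (by decide) (by decide +kernel)]; simp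
  have e248 : v {2, 4, 8} = t * ((0 : ℕ) : ℝ) + m0 + a0 2 + a0 4 + a0 8 := by
    rw [h0 2 4 8 (by decide) (by decide) (by decide +kernel)]; simp
  have e256 : v {2, 5, 6} = t * ((0 : ℕ) : ℝ) + m0 + a0 2 + a0 5 + a0 6 := by
    rw [h0 2 5 6 (by decide) (by decide) (by decide +kernel)]; simp
  have e257 : v {2, 5, 7} = t * ((0 : ℕ) : ℝ) + m0 + a0 2 + a0 5 + a0 7 := by
    rw [h0 2 5 7 (by decide) (by decide) (by decide +kernel)]; simp
  have e258 : v {2, 5, 8} = t * ((0 : ℕ) : ℝ) + m0 + a0 2 + a0 5 + a0 8 := by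
    rw [h0 2 5 8 (by decide) (by decide) (by decide +kernel)]; simp
  have e345 : v {3, 4, 5} = t * ((0 : ℕ) : ℝ) + m0 + a0 3 + a0 4 + a0 5 := by
    rw [h0 3 4 5 (by decide) (by decide) (by decide +kernel)]; simp
  have e346 : v {3, 4, 6} = t * ((0 : ℕ) : ℝ) + m0 + a0 3 + a0 4 + a0 6 := by
    rw [h0 3 4 6 (by decide) (by decide) (by decide +kernel)]; simp
  have e347 : v {3, 4, 7} = t * ((0 : ℕ) : ℝ) + m0 + a0 3 + a0 4 + a0 7 := by
    rw [h0 3 4 7 (by decide) (by decide) (by decide +kernel)]; simp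
  have e348 : v {3, 4, 8} = t * ((0 : ℕ) : ℝ) + m0 + a0 3 + a0 4 + a0 8 := by
    rw [h0 3 4 8 (by decide) (by decide) (by decide +kernel)]; simp
  have e356 : v {3, 5, 6} = t * ((0 : ℕ) : ℝ) + m0 + a0 3 + a0 5 + a0 6 := by
    rw [h0 3 5 6 (by decide) (by decide) (by decide +kernel)]; simp
  have e357 : v {3, 5, 7} = t * ((0 : ℕ) : ℝ) + m0 + a0 3 + a0 5 + a0 7 := by
    rw [h0 3 5 7 (by decide) (by decide) (by decide +kernel)]; simp
  have e358 : v {3, 5, 8} = t * ((0 : ℕ) : ℝ) + m0 + a0 3 + a0 5 + a0 8 := by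
    rw [h0 3 5 8 (by decide) (by decide) (by decide +kernel)]; simp
  have e367 : v {3, 6, 7} = t * ((0 : ℕ) : ℝ) + m0 + a0 3 + a0 6 + a0 7 := by
    rw [h0 3 6 7 (by decide) (by decide) (by decide +kernel)]; simp
  have e368 : v {3, 6, 8} = t * ((0 : ℕ) : ℝ) + m0 + a0 3 + a0 6 + a0 8 := by
    rw [h0 3 6 8 (by decide) (by decide) (by decide +kernel)]; simp
  have e456 : v {4, 5, 6} = t * ((0 : ℕ) : ℝ) + m0 + a0 4 + a0 5 + a0 6 := by
    rw [h0 4 5 6 (by decide) (by decide) (by decide +kernel)]; simp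
  have e467 : v {4, 6, 7} = t * ((0 : ℕ) : ℝ) + m0 + a0 4 + a0 6 + a0 7 := by
    rw [h0 4 6 7 (by decide) (by decide) (by decide +kernel)]; simp
  have e468 : v {4, 6, 8} = t * ((0 : ℕ) : ℝ) + m0 + a0 4 + a0 6 + a0 8 := by
    rw [h0 4 6 8 (by decide) (by decide) (by decide +kernel)]; simp
  have e567 : v {5, 6, 7} = t * ((0 : ℕ) : ℝ) + m0 + a0 5 + a0 6 + a0 7 := by
    rw [h0 5 6 7 (by decide) (by decide) (by decide +kernel)]; simp
  have e568 : v {5, 6, 8} = t * ((0 : ℕ) : ℝ) + m0 + a0 5 + a0 6 + a0 8 := by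
    rw [h0 5 6 8 (by decide) (by decide) (by decide +kernel)]; simp
  have e014 : v {0, 1, 4} = t * ((1 : ℕ) : ℝ) + m0 + a0 0 + a0 1 + a0 4 := by
    rw [ht]; push_cast; ring
  have e045 : v {0, 4, 5} = t * ((1 : ℕ) : ℝ) + m0 + a0 0 + a0 4 + a0 5 := by
    have p0 := h1 0 4 5 (by decide) (by decide) (by decide +kernel)
    have p1 := h1 0 1 2 (by decide) (by decide) (by decide +kernel)
    have p2 := h1 0 1 4 (by decide) (by decide) (by decide +kernel)
    have p3 := h1 0 2 5 (by decide) (by decide) (by decide +kernel)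
    have q1 := e012
    have q2 := e014
    have q3 := e025
    push_cast at q1 q2 q3 ⊢
    linear_combination p0 + p1 - p2 - p3 - q1 + q2 + q3
  have e017 : v {0, 1, 7} = t * ((1 : ℕ) : ℝ) + m0 + a0 0 + a0 1 + a0 7 := by
    have p0 := h1 0 1 7 (by decide) (by decide) (by decide +kernel)
    have p1 := h1 1 2 4 (by decide) (by decide) (by decide +kernel)
    have p2 := h1 0 1 4 (by decide) (by decide) (by decide +kernel)
    have p3 := h1 1 2 7 (by decide) (by decide) (by decide +kernel)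
    have q1 := e124
    have q2 := e014
    have q3 := e127
    push_cast at q1 q2 q3 ⊢
    linear_combination p0 + p1 - p2 - p3 - q1 + q2 + q3
  have e145 : v {1, 4, 5} = t * ((1 : ℕ) : ℝ) + m0 + a0 1 + a0 4 + a0 5 := by
    have p0 := h1 1 4 5 (by decide) (by decide) (by decide +kernel)
    have p1 := h1 0 1 2 (by decide) (by decide) (by decide +kernel)
    have p2 := h1 0 1 4 (by decide) (by decide) (by decide +kernel)
    have p3 := h1 1 2 5 (by decide) (by decide) (by decide +kernel)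
    have q1 := e012
    have q2 := e014
    have q3 := e125
    push_cast at q1 q2 q3 ⊢
    linear_combination p0 + p1 - p2 - p3 - q1 + q2 + q3
  have e147 : v {1, 4, 7} = t * ((1 : ℕ) : ℝ) + m0 + a0 1 + a0 4 + a0 7 := by
    have p0 := h1 1 4 7 (by decide) (by decide) (by decide +kernel)
    have p1 := h1 0 1 2 (by decide) (by decide) (by decide +kernel)
    have p2 := h1 0 1 4 (by decide) (by decide) (by decide +kernel)
    have p3 := h1 1 2 7 (by decide) (by decide) (by decide +kernel)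
    have q1 := e012
    have q2 := e014
    have q3 := e127
    push_cast at q1 q2 q3 ⊢
    linear_combination p0 + p1 - p2 - p3 - q1 + q2 + q3
  have e148 : v {1, 4, 8} = t * ((1 : ℕ) : ℝ) + m0 + a0 1 + a0 4 + a0 8 := by
    have p0 := h1 1 4 8 (by decide) (by decide) (by decide +kernel)
    have p1 := h1 0 1 2 (by decide) (by decide) (by decide +kernel)
    have p2 := h1 0 1 4 (by decide) (by decide) (by decide +kernel)
    have p3 := h1 1 2 8 (by decide) (by decide) (by decide +kernel)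
    have q1 := e012
    have q2 := e014
    have q3 := e128
    push_cast at q1 q2 q3 ⊢
    linear_combination p0 + p1 - p2 - p3 - q1 + q2 + q3
  have e157 : v {1, 5, 7} = t * ((1 : ℕ) : ℝ) + m0 + a0 1 + a0 5 + a0 7 := by
    have p0 := h1 1 5 7 (by decide) (by decide) (by decide +kernel)
    have p1 := h1 0 1 2 (by decide) (by decide) (by decide +kernel)
    have p2 := h1 1 2 5 (by decide) (by decide) (by decide +kernel)
    have p3 := h1 0 1 7 (by decide) (by decide) (by decide +kernel)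
    have q1 := e012
    have q2 := e125
    have q3 := e017
    push_cast at q1 q2 q3 ⊢
    linear_combination p0 + p1 - p2 - p3 - q1 + q2 + q3
  have e178 : v {1, 7, 8} = t * ((1 : ℕ) : ℝ) + m0 + a0 1 + a0 7 + a0 8 := by
    have p0 := h1 1 7 8 (by decide) (by decide) (by decide +kernel)
    have p1 := h1 0 1 2 (by decide) (by decide) (by decide +kernel)
    have p2 := h1 0 1 7 (by decide) (by decide) (by decide +kernel)
    have p3 := h1 1 2 8 (by decide) (by decide) (by decide +kernel)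
    have q1 := e012
    have q2 := e017
    have q3 := e128
    push_cast at q1 q2 q3 ⊢
    linear_combination p0 + p1 - p2 - p3 - q1 + q2 + q3
  have e047 : v {0, 4, 7} = t * ((1 : ℕ) : ℝ) + m0 + a0 0 + a0 4 + a0 7 := by
    have p0 := h1 0 4 7 (by decide) (by decide) (by decide +kernel)
    have p1 := h1 1 2 4 (by decide) (by decide) (by decide +kernel)
    have p2 := h1 0 1 4 (by decide) (by decide) (by decide +kernel)
    have p3 := h1 2 4 7 (by decide) (by decide) (by decide +kernel)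
    have q1 := e124
    have q2 := e014
    have q3 := e247
    push_cast at q1 q2 q3 ⊢
    linear_combination p0 + p1 - p2 - p3 - q1 + q2 + q3
  have e457 : v {4, 5, 7} = t * ((1 : ℕ) : ℝ) + m0 + a0 4 + a0 5 + a0 7 := by
    have p0 := h1 4 5 7 (by decide) (by decide) (by decide +kernel)
    have p1 := h1 0 1 4 (by decide) (by decide) (by decide +kernel)
    have p2 := h1 0 4 5 (by decide) (by decide) (by decide +kernel)
    have p3 := h1 1 4 7 (by decide) (by decide) (by decide +kernel)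
    have q1 := e014
    have q2 := e045
    have q3 := e147
    push_cast at q1 q2 q3 ⊢
    linear_combination p0 + p1 - p2 - p3 - q1 + q2 + q3
  have e458 : v {4, 5, 8} = t * ((1 : ℕ) : ℝ) + m0 + a0 4 + a0 5 + a0 8 := by
    have p0 := h1 4 5 8 (by decide) (by decide) (by decide +kernel)
    have p1 := h1 0 1 4 (by decide) (by decide) (by decide +kernel)
    have p2 := h1 0 4 5 (by decide) (by decide) (by decide +kernel)
    have p3 := h1 1 4 8 (by decide) (by decide) (by decide +kernel)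
    have q1 := e014
    have q2 := e045
    have q3 := e148
    push_cast at q1 q2 q3 ⊢
    linear_combination p0 + p1 - p2 - p3 - q1 + q2 + q3
  have e478 : v {4, 7, 8} = t * ((1 : ℕ) : ℝ) + m0 + a0 4 + a0 7 + a0 8 := by
    have p0 := h1 4 7 8 (by decide) (by decide) (by decide +kernel)
    have p1 := h1 0 1 4 (by decide) (by decide) (by decide +kernel)
    have p2 := h1 0 4 7 (by decide) (by decide) (by decide +kernel)
    have p3 := h1 1 4 8 (by decide) (by decide) (by decide +kernel)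
    have q1 := e014
    have q2 := e047
    have q3 := e148
    push_cast at q1 q2 q3 ⊢
    linear_combination p0 + p1 - p2 - p3 - q1 + q2 + q3
  have e057 : v {0, 5, 7} = t * ((1 : ℕ) : ℝ) + m0 + a0 0 + a0 5 + a0 7 := by
    have p0 := h1 0 5 7 (by decide) (by decide) (by decide +kernel)
    have p1 := h1 1 2 5 (by decide) (by decide) (by decide +kernel)
    have p2 := h1 0 2 5 (by decide) (by decide) (by decide +kernel)
    have p3 := h1 1 5 7 (by decide) (by decide) (by decide +kernel)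
    have q1 := e125
    have q2 := e025
    have q3 := e157
    push_cast at q1 q2 q3 ⊢
    linear_combination p0 + p1 - p2 - p3 - q1 + q2 + q3
  have e578 : v {5, 7, 8} = t * ((1 : ℕ) : ℝ) + m0 + a0 5 + a0 7 + a0 8 := by
    have p0 := h1 5 7 8 (by decide) (by decide) (by decide +kernel)
    have p1 := h1 0 2 5 (by decide) (by decide) (by decide +kernel)
    have p2 := h1 0 5 7 (by decide) (by decide) (by decide +kernel)
    have p3 := h1 2 5 8 (by decide) (by decide) (by decide +kernel)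
    have q1 := e025
    have q2 := e057
    have q3 := e258
    push_cast at q1 q2 q3 ⊢
    linear_combination p0 + p1 - p2 - p3 - q1 + q2 + q3
  have e027 : v {0, 2, 7} = t * ((1 : ℕ) : ℝ) + m0 + a0 0 + a0 2 + a0 7 := by
    have p0 := h3 0 2 7 (by decide) (by decide) (by decide +kernel)
    have p1 := h3 0 1 3 (by decide) (by decide) (by decide +kernel)
    have p2 := h3 0 2 3 (by decide) (by decide) (by decide +kernel)
    have p3 := h3 0 1 7 (by decide) (by decide) (by decide +kernel)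
    have q1 := e013
    have q2 := e023
    have q3 := e017
    push_cast at q1 q2 q3 ⊢
    linear_combination p0 + p1 - p2 - p3 - q1 + q2 + q3
  have e037 : v {0, 3, 7} = t * ((1 : ℕ) : ℝ) + m0 + a0 0 + a0 3 + a0 7 := by
    have p0 := h3 0 3 7 (by decide) (by decide) (by decide +kernel)
    have p1 := h3 0 1 2 (by decide) (by decide) (by decide +kernel)
    have p2 := h3 0 1 3 (by decide) (by decide) (by decide +kernel)
    have p3 := h3 0 2 7 (by decide) (by decide) (by decide +kernel)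
    have q1 := e012
    have q2 := e013
    have q3 := e027
    push_cast at q1 q2 q3 ⊢
    linear_combination p0 + p1 - p2 - p3 - q1 + q2 + q3
  have e067 : v {0, 6, 7} = t * ((1 : ℕ) : ℝ) + m0 + a0 0 + a0 6 + a0 7 := by
    have p0 := h3 0 6 7 (by decide) (by decide) (by decide +kernel)
    have p1 := h3 0 1 2 (by decide) (by decide) (by decide +kernel)
    have p2 := h3 0 1 6 (by decide) (by decide) (by decide +kernel)
    have p3 := h3 0 2 7 (by decide) (by decide) (by decide +kernel)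
    have q1 := e012
    have q2 := e016
    have q3 := e027
    push_cast at q1 q2 q3 ⊢
    linear_combination p0 + p1 - p2 - p3 - q1 + q2 + q3
  have e028 : v {0, 2, 8} = t * ((1 : ℕ) : ℝ) + m0 + a0 0 + a0 2 + a0 8 := by
    have p0 := h3 0 2 8 (by decide) (by decide) (by decide +kernel)
    have p1 := h3 1 2 7 (by decide) (by decide) (by decide +kernel)
    have p2 := h3 0 2 7 (by decide) (by decide) (by decide +kernel)
    have p3 := h3 1 2 8 (by decide) (by decide) (by decide +kernel)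
    have q1 := e127
    have q2 := e027
    have q3 := e128
    push_cast at q1 q2 q3 ⊢
    linear_combination p0 + p1 - p2 - p3 - q1 + q2 + q3
  have e278 : v {2, 7, 8} = t * ((1 : ℕ) : ℝ) + m0 + a0 2 + a0 7 + a0 8 := by
    have p0 := h3 2 7 8 (by decide) (by decide) (by decide +kernel)
    have p1 := h3 0 1 2 (by decide) (by decide) (by decide +kernel)
    have p2 := h3 0 2 7 (by decide) (by decide) (by decide +kernel)
    have p3 := h3 1 2 8 (by decide) (by decide) (by decide +kernel)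
    have q1 := e012
    have q2 := e027
    have q3 := e128
    push_cast at q1 q2 q3 ⊢
    linear_combination p0 + p1 - p2 - p3 - q1 + q2 + q3
  have e038 : v {0, 3, 8} = t * ((1 : ℕ) : ℝ) + m0 + a0 0 + a0 3 + a0 8 := by
    have p0 := h3 0 3 8 (by decide) (by decide) (by decide +kernel)
    have p1 := h3 1 3 7 (by decide) (by decide) (by decide +kernel)
    have p2 := h3 0 3 7 (by decide) (by decide) (by decide +kernel)
    have p3 := h3 1 3 8 (by decide) (by decide) (by decide +kernel)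
    have q1 := e137
    have q2 := e037
    have q3 := e138
    push_cast at q1 q2 q3 ⊢
    linear_combination p0 + p1 - p2 - p3 - q1 + q2 + q3
  have e378 : v {3, 7, 8} = t * ((1 : ℕ) : ℝ) + m0 + a0 3 + a0 7 + a0 8 := by
    have p0 := h3 3 7 8 (by decide) (by decide) (by decide +kernel)
    have p1 := h3 0 1 3 (by decide) (by decide) (by decide +kernel)
    have p2 := h3 0 3 7 (by decide) (by decide) (by decide +kernel)
    have p3 := h3 1 3 8 (by decide) (by decide) (by decide +kernel)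
    have q1 := e013
    have q2 := e037
    have q3 := e138
    push_cast at q1 q2 q3 ⊢
    linear_combination p0 + p1 - p2 - p3 - q1 + q2 + q3
  have e068 : v {0, 6, 8} = t * ((1 : ℕ) : ℝ) + m0 + a0 0 + a0 6 + a0 8 := by
    have p0 := h3 0 6 8 (by decide) (by decide) (by decide +kernel)
    have p1 := h3 1 6 7 (by decide) (by decide) (by decide +kernel)
    have p2 := h3 0 6 7 (by decide) (by decide) (by decide +kernel)
    have p3 := h3 1 6 8 (by decide) (by decide) (by decide +kernel)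
    have q1 := e167
    have q2 := e067
    have q3 := e168
    push_cast at q1 q2 q3 ⊢
    linear_combination p0 + p1 - p2 - p3 - q1 + q2 + q3
  have e678 : v {6, 7, 8} = t * ((1 : ℕ) : ℝ) + m0 + a0 6 + a0 7 + a0 8 := by
    have p0 := h3 6 7 8 (by decide) (by decide) (by decide +kernel)
    have p1 := h3 0 1 6 (by decide) (by decide) (by decide +kernel)
    have p2 := h3 0 6 7 (by decide) (by decide) (by decide +kernel)
    have p3 := h3 1 6 8 (by decide) (by decide) (by decide +kernel)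
    have q1 := e016
    have q2 := e067
    have q3 := e168
    push_cast at q1 q2 q3 ⊢
    linear_combination p0 + p1 - p2 - p3 - q1 + q2 + q3
  have e078 : v {0, 7, 8} = t * ((2 : ℕ) : ℝ) + m0 + a0 0 + a0 7 + a0 8 := by
    have p0 := h3 0 7 8 (by decide) (by decide) (by decide +kernel)
    have p1 := h3 1 2 7 (by decide) (by decide) (by decide +kernel)
    have p2 := h3 0 1 7 (by decide) (by decide) (by decide +kernel)
    have p3 := h3 2 7 8 (by decide) (by decide) (by decide +kernel)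
    have q1 := e127
    have q2 := e017
    have q3 := e278
    push_cast at q1 q2 q3 ⊢
    linear_combination p0 + p1 - p2 - p3 - q1 + q2 + q3
  have e026 : v {0, 2, 6} = t * ((1 : ℕ) : ℝ) + m0 + a0 0 + a0 2 + a0 6 := by
    have p0 := h4 0 2 6 (by decide) (by decide) (by decide +kernel)
    have p1 := h4 1 2 7 (by decide) (by decide) (by decide +kernel)
    have p2 := h4 0 2 7 (by decide) (by decide) (by decide +kernel)
    have p3 := h4 1 2 6 (by decide) (by decide) (by decide +kernel)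
    have q1 := e127
    have q2 := e027
    have q3 := e126
    push_cast at q1 q2 q3 ⊢
    linear_combination p0 + p1 - p2 - p3 - q1 + q2 + q3
  have e267 : v {2, 6, 7} = t * ((1 : ℕ) : ℝ) + m0 + a0 2 + a0 6 + a0 7 := by
    have p0 := h4 2 6 7 (by decide) (by decide) (by decide +kernel)
    have p1 := h4 0 1 2 (by decide) (by decide) (by decide +kernel)
    have p2 := h4 0 2 6 (by decide) (by decide) (by decide +kernel)
    have p3 := h4 1 2 7 (by decide) (by decide) (by decide +kernel)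
    have q1 := e012
    have q2 := e026
    have q3 := e127
    push_cast at q1 q2 q3 ⊢
    linear_combination p0 + p1 - p2 - p3 - q1 + q2 + q3
  have e268 : v {2, 6, 8} = t * ((1 : ℕ) : ℝ) + m0 + a0 2 + a0 6 + a0 8 := by
    have p0 := h4 2 6 8 (by decide) (by decide) (by decide +kernel)
    have p1 := h4 0 1 2 (by decide) (by decide) (by decide +kernel)
    have p2 := h4 0 2 6 (by decide) (by decide) (by decide +kernel)
    have p3 := h4 1 2 8 (by decide) (by decide) (by decide +kernel)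
    have q1 := e012
    have q2 := e026
    have q3 := e128
    push_cast at q1 q2 q3 ⊢
    linear_combination p0 + p1 - p2 - p3 - q1 + q2 + q3
  have e018 : v {0, 1, 8} = t * ((2 : ℕ) : ℝ) + m0 + a0 0 + a0 1 + a0 8 := by
    have p0 := h2 0 1 8 (by decide) (by decide) (by decide +kernel)
    have p1 := h2 0 2 4 (by decide) (by decide) (by decide +kernel)
    have p2 := h2 0 1 4 (by decide) (by decide) (by decide +kernel)
    have p3 := h2 0 2 8 (by decide) (by decide) (by decide +kernel)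
    have q1 := e024
    have q2 := e014
    have q3 := e028
    push_cast at q1 q2 q3 ⊢
    linear_combination p0 + p1 - p2 - p3 - q1 + q2 + q3
  have e048 : v {0, 4, 8} = t * ((2 : ℕ) : ℝ) + m0 + a0 0 + a0 4 + a0 8 := by
    have p0 := h2 0 4 8 (by decide) (by decide) (by decide +kernel)
    have p1 := h2 0 1 2 (by decide) (by decide) (by decide +kernel)
    have p2 := h2 0 1 4 (by decide) (by decide) (by decide +kernel)
    have p3 := h2 0 2 8 (by decide) (by decide) (by decide +kernel)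
    have q1 := e012
    have q2 := e014
    have q3 := e028
    push_cast at q1 q2 q3 ⊢
    linear_combination p0 + p1 - p2 - p3 - q1 + q2 + q3
  have e058 : v {0, 5, 8} = t * ((2 : ℕ) : ℝ) + m0 + a0 0 + a0 5 + a0 8 := by
    have p0 := h2 0 5 8 (by decide) (by decide) (by decide +kernel)
    have p1 := h2 0 1 2 (by decide) (by decide) (by decide +kernel)
    have p2 := h2 0 2 5 (by decide) (by decide) (by decide +kernel)
    have p3 := h2 0 1 8 (by decide) (by decide) (by decide +kernel)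
    have q1 := e012
    have q2 := e025
    have q3 := e018
    push_cast at q1 q2 q3 ⊢
    linear_combination p0 + p1 - p2 - p3 - q1 + q2 + q3
  have e015 : v {0, 1, 5} = t * ((2 : ℕ) : ℝ) + m0 + a0 0 + a0 1 + a0 5 := by
    have p0 := h5 0 1 5 (by decide) (by decide) (by decide +kernel)
    have p1 := h5 1 2 8 (by decide) (by decide) (by decide +kernel)
    have p2 := h5 0 1 8 (by decide) (by decide) (by decide +kernel)
    have p3 := h5 1 2 5 (by decide) (by decide) (by decide +kernel)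
    have q1 := e128
    have q2 := e018
    have q3 := e125
    push_cast at q1 q2 q3 ⊢
    linear_combination p0 + p1 - p2 - p3 - q1 + q2 + q3
  have e158 : v {1, 5, 8} = t * ((2 : ℕ) : ℝ) + m0 + a0 1 + a0 5 + a0 8 := by
    have p0 := h5 1 5 8 (by decide) (by decide) (by decide +kernel)
    have p1 := h5 0 1 2 (by decide) (by decide) (by decide +kernel)
    have p2 := h5 0 1 5 (by decide) (by decide) (by decide +kernel)
    have p3 := h5 1 2 8 (by decide) (by decide) (by decide +kernel)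
    have q1 := e012
    have q2 := e015
    have q3 := e128
    push_cast at q1 q2 q3 ⊢
    linear_combination p0 + p1 - p2 - p3 - q1 + q2 + q3
  have all : ∀ s ∈ L, v {s.1, s.2.1, s.2.2.1} =
      t * (s.2.2.2 : ℝ) + m0 + a0 s.1 + a0 s.2.1 + a0 s.2.2.1 := by
    unfold L
    simp only [List.forall_mem_cons]
    exact ⟨e012, e013, e014, e015, e016, e017, e018, e023, e024, e025, e026, e027, e028, e034, e035, e036, e037, e038, e045, e046, e047, e048, e056, e057, e058, e067, e068, e078, e123, e124, e125, e126, e127, e128, e134, e135, e136, e137, e138, e145, e146, e147, e148, e156, e157, e158, e167, e168, e178, e234, e235, e236, e237, e238, e245, e246, e247, e248, e256, e257, e258, e267, e268, e278, e345, e346, e347, e348, e356, e357, e358, e367, e368, e378, e456, e457, e458, e467, e468, e478, e567, e568, e578, e678, by simp⟩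
  refine ⟨t, fun i => a0 i + m0 / 3, fun B hB => ?_⟩
  obtain ⟨x, y, z, g1, g2, rfl⟩ := sorted3 B hB
  have := all _ (mem_L x y z g1 g2)
  rw [w3 x y z g1.ne (g1.trans g2).ne g2.ne, sum3 _ x y z g1.ne (g1.trans g2).ne g2.ne]
  simp only at this
  linear_combination this

def Wn (x y z : ℕ) : ℕ :=
  Nat.mod (Nat.shiftRight T (Nat.mul 2 (Nat.add (Nat.pow 2 x) (Nat.add (Nat.pow 2 y) (Nat.pow 2 z))))) 4

def ok3 (X Y Z : ℕ) : Bool :=
  bif Nat.beq X Y then Nat.ble X Z else bif Nat.beq X Z then Nat.ble X Y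
    else Nat.beq Y Z && Nat.ble Y X

theorem ok3_spec (X Y Z : ℕ) (h : ok3 X Y Z = true) :
    (X = Y ∧ X ≤ Z) ∨ (X = Z ∧ X ≤ Y) ∨ (Y = Z ∧ Y ≤ X) := by
  unfold ok3 at h
  cases h1 : Nat.beq X Y
  · cases h2 : Nat.beq X Z
    · rw [h1, h2] at h
      simp only [cond_false, Bool.and_eq_true, Nat.beq_eq, Nat.ble_eq] at h
      exact Or.inr (Or.inr h)
    · rw [h1, h2] at h
      simp only [cond_false, cond_true, Nat.ble_eq] at h
      exact Or.inr (Or.inl ⟨Nat.eq_of_beq_eq_true h2, h⟩)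
  · rw [h1] at h
    simp only [cond_true, Nat.ble_eq] at h
    exact Or.inl ⟨Nat.eq_of_beq_eq_true h1, h⟩

theorem plb : allLt 9 (fun s => allLt 9 fun i => Nat.beq i s || allLt 9 fun j =>
    Nat.beq j s || Nat.beq i j || allLt 9 fun k => Nat.beq k s || Nat.beq i k || Nat.beq j k ||
    allLt 9 fun l => Nat.beq l s || Nat.beq i l || Nat.beq j l || Nat.beq k l ||
      ok3 (Nat.add (Wn i j s) (Wn k l s)) (Nat.add (Wn i k s) (Wn j l s))
        (Nat.add (Wn i l s) (Wn j k s))) = true := by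
  decide +kernel

theorem pl (s i j k l : Fin 9) (h1 : i ≠ s) (h2 : j ≠ s) (h3 : k ≠ s) (h4 : l ≠ s)
    (h5 : i ≠ j) (h6 : i ≠ k) (h7 : i ≠ l) (h8 : j ≠ k) (h9 : j ≠ l) (h10 : k ≠ l) :
    ((W i j s + W k l s = W i k s + W j l s ∧ W i j s + W k l s ≤ W i l s + W j k s) ∨
     (W i j s + W k l s = W i l s + W j k s ∧ W i j s + W k l s ≤ W i k s + W j l s) ∨
     (W i k s + W j l s = W i l s + W j k s ∧ W i k s + W j l s ≤ W i j s + W k l s)) := by
  have h := plb
  simp only [allLt_iff, Bool.or_eq_true, Nat.beq_eq] at h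
  have v : ∀ {a b : Fin 9}, a ≠ b → ¬ a.val = b.val := fun e e' => e (Fin.ext e')
  have a1 := ((h s s.isLt) i i.isLt).resolve_left (v h1)
  have a2 := (a1 j j.isLt).resolve_left (by simp [v h2, v h5])
  have a3 := (a2 k k.isLt).resolve_left (by simp [v h3, v h6, v h8])
  have a4 := (a3 l l.isLt).resolve_left (by simp [v h4, v h7, v h9, v h10])
  exact ok3_spec _ _ _ a4

end Pool.Agent.H.MP_2e1090_co
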