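import Pool.Agent.H.MP_2e1090_co.Key

set_option autoImplicit false

namespace Pool.Agent.H.MP_2e1090_co

theorem wv : w {0, 1, 2} = 0 ∧ w {0, 3, 4} = 0 ∧ w {0, 1, 4} = 1 ∧ w {0, 2, 3} = 0 ∧
    w {0, 5, 6} = 0 ∧ w {0, 1, 5} = 2 ∧ w {0, 2, 6} = 1 ∧ w {0, 1, 3} = 0 ∧ w {0, 2, 4} = 0 := by
  have e : W 0 1 2 = 0 ∧ W 0 3 4 = 0 ∧ W 0 1 4 = 1 ∧ W 0 2 3 = 0 ∧
    W 0 5 6 = 0 ∧ W 0 1 5 = 2 ∧ W 0 2 6 = 1 ∧ W 0 1 3 = 0 ∧ W 0 2 4 = 0 := by decide +kernel
  obtain ⟨a, b, c, d, e, f, g, h, i⟩ := e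
  refine ⟨?_, ?_, ?_, ?_, ?_, ?_, ?_, ?_, ?_⟩ <;> rw [w3 _ _ _ (by decide) (by decide) (by decide)] <;>
    simp [*]

theorem nontriv : ¬ ∃ c : Fin 9 → ℝ, ∀ B : Finset (Fin 9), B.card = 3 →
    ∀ B' : Finset (Fin 9), B'.card = 3 → w B - ∑ i ∈ B, c i ≤ w B' - ∑ i ∈ B', c i := by
  rintro ⟨c, hc⟩
  obtain ⟨a1, a2, a3, a4, -⟩ := wv
  have h1 := hc {0, 1, 4} (by decide) {0, 1, 2} (by decide)
  have h2 := hc {0, 2, 3} (by decide) {0, 3, 4} (by decide)
  rw [sum3 _ _ _ _ (by decide) (by decide) (by decide), sum3 _ _ _ _ (by decide) (by decide) (by decide)]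
    at h1 h2
  linarith

theorem pluck (S : Finset (Fin 9)) (i j k l : Fin 9) (hS : S.card + 2 = 3)
    (h1 : i ∉ S) (h2 : j ∉ S) (h3 : k ∉ S) (h4 : l ∉ S)
    (h5 : i ≠ j) (h6 : i ≠ k) (h7 : i ≠ l) (h8 : j ≠ k) (h9 : j ≠ l) (h10 : k ≠ l) :
        ((w (insert i (insert j S)) + w (insert k (insert l S))
            = w (insert i (insert k S)) + w (insert j (insert l S)) ∧
          w (insert i (insert j S)) + w (insert k (insert l S))
            ≤ w (insert i (insert l S)) + w (insert j (insert k S))) ∨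
         (w (insert i (insert j S)) + w (insert k (insert l S))
            = w (insert i (insert l S)) + w (insert j (insert k S)) ∧
          w (insert i (insert j S)) + w (insert k (insert l S))
            ≤ w (insert i (insert k S)) + w (insert j (insert l S))) ∨
         (w (insert i (insert k S)) + w (insert j (insert l S))
            = w (insert i (insert l S)) + w (insert j (insert k S)) ∧
          w (insert i (insert k S)) + w (insert j (insert l S))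
            ≤ w (insert i (insert j S)) + w (insert k (insert l S)))) := by
  obtain ⟨s, rfl⟩ := Finset.card_eq_one.mp (show S.card = 1 by omega)
  rw [Finset.notMem_singleton] at h1 h2 h3 h4
  have := pl s i j k l h1 h2 h3 h4 h5 h6 h7 h8 h9 h10
  rw [w3 i j s h5 h1 h2, w3 k l s h10 h3 h4, w3 i k s h6 h1 h3, w3 j l s h9 h2 h4,
    w3 i l s h7 h1 h4, w3 j k s h8 h2 h3]
  exact_mod_cast this

theorem cell_eq (v : Finset (Fin 9) → ℝ) (t : ℝ) (l : Fin 9 → ℝ) (ht : 0 < t)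
    (h : ∀ B : Finset (Fin 9), B.card = 3 → v B = t * w B + ∑ i ∈ B, l i) (c : Fin 9 → ℝ) :
    cell w c = cell v (fun i => t * c i + l i) := by
  have e : ∀ B : Finset (Fin 9), B.card = 3 →
      v B - ∑ i ∈ B, (t * c i + l i) = t * (w B - ∑ i ∈ B, c i) := by
    intro B hB
    rw [h B hB, Finset.sum_add_distrib, ← Finset.mul_sum]
    ring
  ext B
  refine and_congr_right fun hB => forall_congr' fun B' => forall_congr' fun hB' => ?_
  rw [e B hB, e B' hB', mul_le_mul_iff_right₀ ht]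

theorem rk_step (M : Matroid (Fin 9)) (B B' : Finset (Fin 9)) (b : Fin 9) (h : B ⊆ insert b B') :
    (M.eRk (B : Set (Fin 9))).toNat ≤ (M.eRk (B' : Set (Fin 9))).toNat + 1 := by
  have h1 : M.eRk (B : Set (Fin 9)) ≤ M.eRk (B' : Set (Fin 9)) + 1 := by
    refine le_trans (M.eRk_mono ?_) (M.eRk_insert_le_add_one b _)
    rw [← Finset.coe_insert]
    exact_mod_cast h
  have f : ∀ X : Finset (Fin 9), M.eRk (X : Set (Fin 9)) ≠ ⊤ := fun X =>
    ne_top_of_le_ne_top (X.finite_toSet.encard_lt_top.ne) (M.eRk_le_encard _)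
  obtain ⟨a, ha⟩ := ENat.ne_top_iff_exists.mp (f B)
  obtain ⟨a', ha'⟩ := ENat.ne_top_iff_exists.mp (f B')
  rw [← ha, ← ha'] at h1 ⊢
  simp only [ENat.toNat_coe]
  exact_mod_cast h1

theorem not_corank (M : Matroid (Fin 9))
    (h1 : ∀ c, ∃ c', cell w c =
      cell (fun B => ((3 : ℕ) : ℝ) - ((M.eRk (B : Set (Fin 9))).toNat : ℝ)) c')
    (h2 : ∀ c, ∃ c', cell (fun B => ((3 : ℕ) : ℝ) - ((M.eRk (B : Set (Fin 9))).toNat : ℝ)) c =
      cell w c') : False := by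
  obtain ⟨t, l, h⟩ := key _ (fun c => (h1 c).imp fun c' e => e.subset)
  obtain ⟨a1, a2, a3, a4, a5, a6, a7, -⟩ := wv
  have e1 := h {0, 1, 2} (by decide)
  have e2 := h {0, 3, 4} (by decide)
  have e3 := h {0, 1, 4} (by decide)
  have e4 := h {0, 2, 3} (by decide)
  have e5 := h {0, 5, 6} (by decide)
  have e6 := h {0, 1, 5} (by decide)
  have e7 := h {0, 2, 6} (by decide)
  rw [sum3 _ _ _ _ (by decide) (by decide) (by decide)] at e1 e2 e3 e4 e5 e6 e7
  rw [a1] at e1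
  rw [a2] at e2
  rw [a3] at e3
  rw [a4] at e4
  rw [a5] at e5
  rw [a6] at e6
  rw [a7] at e7
  have r1 := rk_step M {0, 1, 2} {0, 1, 5} 2 (by decide)
  have r2 := rk_step M {0, 5, 6} {0, 2, 6} 5 (by decide)
  have r3 := rk_step M {0, 1, 5} {0, 1, 2} 5 (by decide)
  have r4 := rk_step M {0, 2, 6} {0, 5, 6} 2 (by decide)
  generalize (M.eRk (({0, 1, 2} : Finset (Fin 9)) : Set (Fin 9))).toNat = x1 at *
  generalize (M.eRk (({0, 3, 4} : Finset (Fin 9)) : Set (Fin 9))).toNat = x2 at *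
  generalize (M.eRk (({0, 1, 4} : Finset (Fin 9)) : Set (Fin 9))).toNat = x3 at *
  generalize (M.eRk (({0, 2, 3} : Finset (Fin 9)) : Set (Fin 9))).toNat = x4 at *
  generalize (M.eRk (({0, 5, 6} : Finset (Fin 9)) : Set (Fin 9))).toNat = x5 at *
  generalize (M.eRk (({0, 1, 5} : Finset (Fin 9)) : Set (Fin 9))).toNat = x6 at *
  generalize (M.eRk (({0, 2, 6} : Finset (Fin 9)) : Set (Fin 9))).toNat = x7 at *
  have t1 : t + x3 + x4 = x1 + x2 := by linarith
  have t3 : 3 * t + x6 + x7 = x1 + x5 := by linarith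
  have z : (3 * (x1 + x2) + x6 + x7 : ℝ) = x1 + x5 + 3 * (x3 + x4) := by linarith
  have z' : 3 * (x1 + x2) + x6 + x7 = x1 + x5 + 3 * (x3 + x4) := by exact_mod_cast z
  have z2 : x3 + x4 = x1 + x2 := by omega
  have z3 : (x3 + x4 : ℝ) = x1 + x2 := by exact_mod_cast z2
  have t0 : t = 0 := by linarith
  obtain ⟨c', hc'⟩ := h2 l
  refine nontriv ⟨c', fun B hB => ?_⟩
  have : B ∈ cell w c' := by
    rw [← hc']
    refine ⟨hB, fun B' hB' => ?_⟩
    have p := h B hB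
    have q := h B' hB'
    rw [t0] at p q
    simp only at p q ⊢
    linarith
  exact this.2

end Pool.Agent.H.MP_2e1090_co
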